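import Pool.Agent.H519R3.RS.Centre

/-!
MP_b525bf_ag: resolution of the iterated quotients of (possibly singular) affine varieties of
characteristic `p` by automorphisms of order `p` whose leading forms have no zeros outside the
vertex of a smooth weighted blowup.
-/

set_option autoImplicit false

open AlgebraicGeometry CategoryTheory Pool.Agent.H920R2 Pool.Agent.H519R3.RS

universe u

namespace Pool.Agent.Results.MP_b525bf_ag.GroupTowers

/-- The structure morphism of the spectrum of a subalgebra. -/
noncomputable def str {k B : Type u} [Field k] [CommRing B] [Algebra k B] (C : Subalgebra k B) :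
    Spec (CommRingCat.of C) ⟶ Spec (CommRingCat.of k) :=
  Spec.map (CommRingCat.ofHom (algebraMap k C))

/-- Let `B` be a domain over a field `k` of characteristic `p` and `F` a decreasing multiplicative
filtration of `B` by ideals, with `F 0 = B` and `F 1 ≠ 0`, such that

* either the weighted blowup of `F` is smooth (`Good`): the extended Rees algebra of `F`, the sum
  of the `F d T ^ d` for `d > 0` and of the `B T ^ d` for `d ≤ 0`, is of finite type and its
  localizations at the nonzero elements `b T ^ d` with `d > 0` are smooth over `k` (here `B` may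
  be singular),
* or `B` is smooth and `F` is a regular weighted centre.

Let `B = C 0 ⊇ C 1 ⊇ ... ⊇ C n` be a chain of subalgebras such that `C (i + 1)` is the ring of
invariants of an automorphism `σ` of `C i` with `σ ^ p = 1` (`SStep`), such that `σ - 1` raises the
weights of the filtration induced by `F` on `C i` by some `l > 0`, the fixed points of `σ` lie in
the centre and the leading form of `σ - 1` has no zeros outside the vertex. (For instance
`C i = B ^ (G i)` for a chain of subgroups `1 = G 0 ⊂ G 1 ⊂ ... ⊂ G n` of a group of order `p ^ n`
of automorphisms of `B`, each normal of index `p` in the next.)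

Then `Spec (C n)` is a variety which has a resolution of singularities. -/
theorem result (p : ℕ) [Fact p.Prime] (k : Type u) [Field k] [CharP k p] (B : Type u)
    [CommRing B] [IsDomain B] [Algebra k B] (F : ℕ → Ideal B) (hF : IsFilt F) (hne : F 1 ≠ ⊥)
    (hG : Good k hF ∨ (Algebra.Smooth k B ∧ RegularWeightedCentre k F))
    (n : ℕ) (C : ℕ → Subalgebra k B) (hC0 : C 0 = ⊤)
    (hC : ∀ i < n, SStep p F (C i) (C (i + 1))) :
    IsVariety (str (C n)) ∧
    ∃ (Y : Scheme.{u}) (π : Y ⟶ Spec (CommRingCat.of (C n))),
      AlgebraicGeometry.IsIntegral Y ∧ AlgebraicGeometry.IsProper π ∧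
      AlgebraicGeometry.Smooth (π ≫ str (C n)) ∧
      ∃ U : (Spec (CommRingCat.of (C n))).Opens,
        Dense (U : Set (Spec (CommRingCat.of (C n)))) ∧ IsIso (π ∣_ U) := by
  have hp : p.Prime := Fact.out
  have hpk : (p : k) = 0 := CharP.cast_eq_zero k p
  have hG' : Good k hF := by
    rcases hG with h | ⟨h1, h2⟩
    · exact h
    · exact good_of_centre hF h2
  have key : ∀ i ≤ n, Good k (isFilt_restr hF (C i)) ∧ restr F (C i) 1 ≠ ⊥ := by
    intro i
    induction i with
    | zero => intro _; exact good_top hF hG' hne hC0
    | succ i ih =>
      intro hi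
      obtain ⟨h1, h2⟩ := ih (by omega)
      exact good_sstep hp hpk hF (hC i (by omega)) h1 h2
  obtain ⟨h1, h2⟩ := key n le_rfl
  exact concl hF h1 h2

end Pool.Agent.Results.MP_b525bf_ag.GroupTowers
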