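import Pool.Agent.H519R3.RE.X9

/-!
MP_b525bf_ag: resolution of the quotients of affine spaces in characteristic `p` by finite groups of
translations along vectors of polynomials which are linearly independent outside a coordinate
subspace.
-/

set_option autoImplicit false

open AlgebraicGeometry CategoryTheory MvPolynomial Pool.Agent.H920R2

universe u

namespace Pool.Agent.Results.MP_b525bf_ag.TranslationProducts

variable {k : Type u} [Field k] {n m r : ℕ}

/-- The automorphism `Y t ↦ Y t + v t` of the affine space with the coordinates `X i`, `Y t`, where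
the `v t` are polynomials in the `X i`. -/
noncomputable def shift (v : Fin m → MvPolynomial (Fin n) k) :
    MvPolynomial (Fin n ⊕ Fin m) k →ₐ[k] MvPolynomial (Fin n ⊕ Fin m) k :=
  aeval (Sum.elim (fun i => X (Sum.inl i)) fun t => X (Sum.inr t) + rename Sum.inl (v t))

/-- The algebra of invariants of the group generated by the translations `Y ↦ Y + a * v j` for
`a ∈ Γ j`. -/
noncomputable def invariants (Γ : Fin r → AddSubgroup k)
    (v : Fin r → Fin m → MvPolynomial (Fin n) k) :
    Subalgebra k (MvPolynomial (Fin n ⊕ Fin m) k) where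
  carrier := {b | ∀ j, ∀ a ∈ Γ j, shift (fun t => C a * v j t) b = b}
  mul_mem' := by
    intro a b ha hb j c hc
    rw [map_mul, ha j c hc, hb j c hc]
  add_mem' := by
    intro a b ha hb j c hc
    rw [map_add, ha j c hc, hb j c hc]
  algebraMap_mem' := fun a j c _ => (shift (fun t => C c * v j t)).commutes a

/-- The quotient of the affine space by the group of translations. -/
noncomputable def quot (Γ : Fin r → AddSubgroup k)
    (v : Fin r → Fin m → MvPolynomial (Fin n) k) : Scheme.{u} :=
  Spec (CommRingCat.of (invariants Γ v))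

/-- The structure morphism of the quotient. -/
noncomputable def quotStr (Γ : Fin r → AddSubgroup k)
    (v : Fin r → Fin m → MvPolynomial (Fin n) k) :
    quot Γ v ⟶ Spec (CommRingCat.of k) :=
  Spec.map (CommRingCat.ofHom (algebraMap k (invariants Γ v)))

/-- Let `k` be a field of characteristic `p` and `Γ 1, ..., Γ r` finite subgroups of the additive
group of `k`. Let the coordinates `X i` of affine `n`-space have weights `w i ≥ 0`, not all `0`,
and let `v j = (v j t)`, for `j ≤ r`, be vectors of polynomials in the `X i`, such that the entries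
of `v j` are weighted homogeneous of the same degree `l j > 0`. Suppose that the vectors
`v 1 (z), ..., v r (z)` are linearly independent at every point `z` (with coordinates in any field)
outside the subspace where the coordinates of positive weight vanish. Then the quotient of affine
`n + m`-space by the group `Γ 1 × ... × Γ r`, where `(a 1, ..., a r)` acts by
`(x, y) ↦ (x, y + a 1 * v 1 (x) + ... + a r * v r (x))`, is a variety and has a resolution of
singularities. -/
theorem result (p : ℕ) [Fact p.Prime] (k : Type u) [Field k] [CharP k p] (n m r : ℕ)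
    (Γ : Fin r → AddSubgroup k) [∀ j, Finite (Γ j)]
    (w : Fin n → ℕ) (hw : ∃ i, 0 < w i) (l : Fin r → ℕ) (hl : ∀ j, 0 < l j)
    (v : Fin r → Fin m → MvPolynomial (Fin n) k)
    (hv : ∀ j t, IsWeightedHomogeneous w (v j t) (l j))
    (hV : ∀ (K : Type u) [Field K] [Algebra k K] (z : Fin n → K), (∃ i, 0 < w i ∧ z i ≠ 0) →
      LinearIndependent K (fun j t => aeval z (v j t))) :
    IsVariety (quotStr Γ v) ∧
    ∃ (Y : Scheme.{u}) (π : Y ⟶ quot Γ v),
      AlgebraicGeometry.IsIntegral Y ∧ AlgebraicGeometry.IsProper π ∧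
      AlgebraicGeometry.Smooth (π ≫ quotStr Γ v) ∧
      ∃ U : (quot Γ v).Opens, Dense (U : Set (quot Γ v)) ∧ IsIso (π ∣_ U) := by
  have hp : p.Prime := Fact.out
  let ε := (Finite.equivFin (Σ j, Γ j)).symm
  let γ : Fin (Nat.card (Σ j, Γ j)) → k := fun i => ((ε i).2 : k)
  let dir : Fin (Nat.card (Σ j, Γ j)) → Fin r := fun i => (ε i).1
  have heq : invariants Γ v = Pool.Agent.H519R3.RE.CS (Pool.Agent.H519R3.RE.vr γ dir v)
      (Nat.card (Σ j, Γ j)) := by
    ext b
    constructor
    · intro h i _
      exact h (dir i) (γ i) (ε i).2.2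
    · intro h j a ha
      have h1 := h (ε.symm ⟨j, a, ha⟩) (ε.symm ⟨j, a, ha⟩).2
      have h2 : ε (ε.symm ⟨j, a, ha⟩) = ⟨j, a, ha⟩ := Equiv.apply_symm_apply _ _
      have h3 : Pool.Agent.H519R3.RE.vr γ dir v (ε.symm ⟨j, a, ha⟩) = fun t => C a * v j t := by
        ext1 t
        change C (((ε (ε.symm ⟨j, a, ha⟩)).2 : Γ _) : k) * v (ε (ε.symm ⟨j, a, ha⟩)).1 t = _
        rw [h2]
      rw [h3] at h1
      exact h1
  obtain ⟨h1, h2⟩ := Pool.Agent.H519R3.RE.good_r γ dir v hp w hw l hl hv hV
    (Nat.card (Σ j, Γ j)) le_rfl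
  have h3 := Pool.Agent.H519R3.RS.concl (Pool.Agent.H519R3.RE.isFilt_EI _ w) h1 h2
  have key : ∀ C : Subalgebra k (MvPolynomial (Fin n ⊕ Fin m) k),
      C = Pool.Agent.H519R3.RE.CS (Pool.Agent.H519R3.RE.vr γ dir v) (Nat.card (Σ j, Γ j)) →
      IsVariety (X := Spec (CommRingCat.of C)) (Spec.map (CommRingCat.ofHom (algebraMap k C))) ∧
      ∃ (Y : Scheme.{u}) (π : Y ⟶ Spec (CommRingCat.of C)),
        AlgebraicGeometry.IsIntegral Y ∧ AlgebraicGeometry.IsProper π ∧
        AlgebraicGeometry.Smooth (π ≫ Spec.map (CommRingCat.ofHom (algebraMap k C))) ∧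
        ∃ U : (Spec (CommRingCat.of C)).Opens,
          Dense (U : Set (Spec (CommRingCat.of C))) ∧ IsIso (π ∣_ U) := by
    rintro _ rfl
    exact h3
  exact key _ heq

end Pool.Agent.Results.MP_b525bf_ag.TranslationProducts
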